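import Pool.Agent.K1H44.DenseSys.Lower

/-! Project SI, second part: the known lower bound (dependent random choice) in another form. -/

set_option autoImplicit false

namespace Pool.Agent.U208.SI

open Pool.Agent.K1H44.DenseSys (f)

theorem f_lower (c : ℝ) (hc : 0 < c) (hc1 : c < 1 / 2) (ε : ℝ) (hε : 0 < ε) (hεc : ε ≤ c ^ 2) :
    ∃ m₁ : ℕ, ∀ n m : ℕ, 1 ≤ n → m₁ ≤ m →
      (m : ℝ) ^ (1 - 4 * Real.log (1 / c) / Real.log (1 / ε)) ≤ (f n m c ε : ℝ) := by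
  have hεc' : ε < c := by nlinarith
  have h1 : 1 < c / ε := by rw [one_lt_div hε]; exact hεc'
  have h2 : 0 < Real.log (c / ε) := Real.log_pos h1
  have h3 : 1 < 1 / c := by rw [one_lt_div hc]; linarith
  have h4 : 0 < Real.log (1 / c) := Real.log_pos h3
  have h5 : Real.log (1 / ε) ≤ 2 * Real.log (c / ε) := by
    have e1 : Real.log (c / ε) = Real.log c - Real.log ε := Real.log_div hc.ne' hε.ne'
    have e2 : Real.log (1 / ε) = - Real.log ε := by rw [one_div, Real.log_inv]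
    have e3 : Real.log ε ≤ Real.log (c ^ 2) := Real.log_le_log hε hεc
    rw [Real.log_pow] at e3
    push_cast at e3
    rw [e1, e2]; linarith
  have h6 : 0 < Real.log (1 / ε) := by
    apply Real.log_pos
    rw [one_lt_div hε]
    nlinarith
  set γ := Real.log (1 / c) / Real.log (c / ε) with hγ
  set γ₁ := 2 * Real.log (1 / c) / Real.log (1 / ε) with hγ₁
  have hγ0 : 0 < γ := div_pos h4 h2
  have h7 : γ ≤ γ₁ := by
    rw [hγ, hγ₁, div_le_div_iff₀ h2 h6]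
    nlinarith
  have hγ₁0 : 0 < γ₁ := by positivity
  have hγ1 : γ ≤ 1 := by
    rw [hγ, div_le_one h2]
    refine Real.log_le_log (by positivity) ?_
    rw [div_le_div_iff₀ hc hε]; nlinarith
  refine ⟨⌈(4 / c) ^ (1 / γ₁)⌉₊ + 1, fun n m hn hm => ?_⟩
  have hm1' : 1 ≤ m := by omega
  have hm1 : (1 : ℝ) ≤ m := by exact_mod_cast hm1'
  have hm0 : (0 : ℝ) < m := by linarith
  have hmK : (4 / c) ^ (1 / γ₁) ≤ m := (Nat.le_ceil _).trans (by exact_mod_cast (by omega))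
  have h8 : 4 / c ≤ (m : ℝ) ^ γ₁ := by
    calc 4 / c = ((4 / c) ^ (1 / γ₁)) ^ γ₁ := by
          rw [← Real.rpow_mul (by positivity), one_div, inv_mul_cancel₀ hγ₁0.ne', Real.rpow_one]
      _ ≤ _ := Real.rpow_le_rpow (by positivity) hmK hγ₁0.le
  have h9 := Pool.Agent.K1H44.DenseSys.lower hn hm1' hε hεc' (by linarith : c < 1)
  refine le_trans ?_ h9
  have hmin0 : 0 < 2 * min (m : ℝ) (2 ^ n) := by
    have : 0 < min (m : ℝ) (2 ^ n) := lt_min hm0 (by positivity)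
    linarith
  have h10 : (2 * (m : ℝ)) ^ (-γ) ≤ (2 * min (m : ℝ) (2 ^ n)) ^ (-γ) := by
    apply Real.rpow_le_rpow_of_nonpos hmin0
    · have := min_le_left (m : ℝ) (2 ^ n)
      linarith
    · linarith
  have h11 : (1 / 2 : ℝ) ≤ (2 : ℝ) ^ (-γ) := by
    calc (1 / 2 : ℝ) = (2 : ℝ) ^ (-1 : ℝ) := by rw [Real.rpow_neg_one]; norm_num
      _ ≤ _ := Real.rpow_le_rpow_of_exponent_le (by norm_num) (by linarith)
  have h12 : (m : ℝ) ^ (-γ₁) ≤ (m : ℝ) ^ (-γ) :=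
    Real.rpow_le_rpow_of_exponent_le hm1 (by linarith)
  have h13 : (m : ℝ) ^ (-γ₁) ≤ c / 4 := by
    rw [Real.rpow_neg hm0.le]
    calc ((m : ℝ) ^ γ₁)⁻¹ ≤ (4 / c)⁻¹ := inv_anti₀ (by positivity) h8
      _ = c / 4 := by rw [inv_div]
  have h14 : 0 < (m : ℝ) ^ (-γ₁) := by positivity
  calc (m : ℝ) ^ (1 - 4 * Real.log (1 / c) / Real.log (1 / ε))
      = m * ((m : ℝ) ^ (-γ₁) * (m : ℝ) ^ (-γ₁)) := by
        rw [← Real.rpow_add hm0]
        nth_rw 2 [← Real.rpow_one (m : ℝ)]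
        rw [← Real.rpow_add hm0]
        congr 1
        rw [hγ₁]
        ring
    _ ≤ m * (c / 4 * (m : ℝ) ^ (-γ)) := by gcongr
    _ = c / 2 * m * ((1 / 2) * (m : ℝ) ^ (-γ)) := by ring
    _ ≤ c / 2 * m * ((2 : ℝ) ^ (-γ) * (m : ℝ) ^ (-γ)) := by gcongr
    _ = c / 2 * m * (2 * (m : ℝ)) ^ (-γ) := by rw [Real.mul_rpow (by norm_num) hm0.le]
    _ ≤ _ := by gcongr

end Pool.Agent.U208.SI
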