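import Pool.Agent.U208.SI.Stm

/-! Project SI: assembly. -/

set_option autoImplicit false

namespace Pool.Agent.U208.SI

open Finset MeasureTheory ProbabilityTheory
open scoped ENNReal

theorem half_meas {D : ℕ} (s : ℝ) (v : Fin D → ℝ) : MeasurableSet (half s v) := by
  apply measurableSet_lt measurable_const
  exact Finset.measurable_sum _ fun i _ => measurable_const.mul (measurable_pi_apply i)

instance (D : ℕ) : IsProbabilityMeasure (gam D) := by unfold gam; infer_instance

theorem asm_num {β η L x : ℝ} (hβ : 0 < β) (hη : 0 < η) (hL : 0 < L)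
    (h : 128 * L / (3 * η) * (η / 32 - Real.log β) ≤ x) {D : ℝ} (hD : x / L - 1 ≤ D) :
    η / (128 * L) * x ≤ Real.log (β * Real.exp (η * D / 32)) := by
  rw [Real.log_mul hβ.ne' (Real.exp_pos _).ne', Real.log_exp]
  have h1 : η * (x / L - 1) / 32 ≤ η * D / 32 := by gcongr
  have h2 : η / 32 - Real.log β ≤ 3 * η / (128 * L) * x := by
    have h3 : 0 < 3 * η / (128 * L) := by positivity
    calc η / 32 - Real.log β
        = 3 * η / (128 * L) * (128 * L / (3 * η) * (η / 32 - Real.log β)) := by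
          field_simp
      _ ≤ _ := by gcongr
  have h4 : η * (x / L - 1) / 32 = η / (128 * L) * x + 3 * η / (128 * L) * x - η / 32 := by
    field_simp
    ring
  linarith

theorem asm (hCH : S_CH) (hSA : S_SA) (hPLB : S_PLB) (hGM : S_GM) (hTM : S_TM) (hGC : S_GC)
    (hGA : S_GA) (hGB : S_GB) (hNU : S_NU) : Fin0 := by
  classical
  intro c hc0 hc
  obtain ⟨r0, β, hr0, hβ, hfar⟩ := hGM
  set r : ℝ := r0 / 4 with hr
  have hrpos : 0 < r := by positivity
  have hfar' : Far (4 * r) β := by
    have : 4 * r = r0 := by rw [hr]; ring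
    rw [this]; exact hfar
  obtain ⟨s, τ, hs, hτ, hcτ, hGA'⟩ := hGA c r hc hrpos
  obtain ⟨κ, ε₀, hκ, hε₀, hε₀', hNU'⟩ := hNU s r hs hrpos
  refine ⟨κ, ε₀, hκ, hε₀, hε₀', fun ε hε hεle => ?_⟩
  obtain ⟨η, q, hη, hηr, hexp, hq4, hq1, hk⟩ := hNU' ε hε hεle
  obtain ⟨K0, hK0, hSA'⟩ := hSA τ ε hτ hε
  set L : ℝ := Real.log (2 * q) with hL
  have hq1' : (1 : ℝ) ≤ q := by exact_mod_cast hq1
  have hLpos : 0 < L := Real.log_pos (by linarith)
  set T : ℝ := max 1 (max L (128 * L / (3 * η) * (η / 32 - Real.log β))) with hT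
  refine ⟨2 * K0, ⌈Real.exp T⌉₊, by positivity, fun n m hm hn => ?_⟩
  have hmT : Real.exp T ≤ m := (Nat.le_ceil _).trans (by exact_mod_cast hm)
  have hm0 : (0 : ℝ) < m := (Real.exp_pos _).trans_le hmT
  have hlog : T ≤ Real.log m := (Real.le_log_iff_exp_le hm0).2 hmT
  have h1 : 1 ≤ Real.log m := (le_max_left _ _).trans hlog
  have h2 : L ≤ Real.log m := ((le_max_left _ _).trans (le_max_right _ _)).trans hlog
  have h3 : 128 * L / (3 * η) * (η / 32 - Real.log β) ≤ Real.log m :=
    ((le_max_right _ _).trans (le_max_right _ _)).trans hlog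
  set D : ℕ := ⌊Real.log m / L⌋₊ with hD
  have hD1 : 1 ≤ D := by
    rw [hD, Nat.one_le_floor_iff, le_div_iff₀ hLpos]; linarith
  have hDle : (D : ℝ) ≤ Real.log m / L := Nat.floor_le (by positivity)
  have hDge : Real.log m / L - 1 ≤ D := by
    have := Nat.lt_floor_add_one (Real.log m / L)
    rw [← hD] at this
    linarith
  have hDL : D * L ≤ Real.log m := by rwa [le_div_iff₀ hLpos] at hDle
  have hcard : Fintype.card (Fin D → Fin (2 * q)) = (2 * q) ^ D := by
    rw [Fintype.card_fun, Fintype.card_fin, Fintype.card_fin]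
  have h2q : (0 : ℝ) < 2 * q := by linarith
  have hlogc : Real.log (Fintype.card (Fin D → Fin (2 * q))) = D * L := by
    rw [hcard]; push_cast; rw [Real.log_pow]
  have hcardm : Fintype.card (Fin D → Fin (2 * q)) ≤ m := by
    have : ((Fintype.card (Fin D → Fin (2 * q)) : ℕ) : ℝ) ≤ m := by
      rw [← Real.log_le_log_iff ?_ hm0, hlogc]
      · exact hDL
      · rw [hcard]; push_cast; positivity
    exact_mod_cast this
  have hne : Nonempty (Fin (2 * q)) := ⟨⟨0, by omega⟩⟩
  have hcard0 : 0 < Fintype.card (Fin D → Fin (2 * q)) := Fintype.card_pos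
  set B : (Fin D → Fin (2 * q)) → Set (Fin D → ℝ) := fun v =>
    if r * D ≤ sq (pt v) then half s (pt v) else Set.univ with hB
  obtain ⟨A, hA1, hA2⟩ := hSA' (gam D) B (fun u v => Rel r η u v) c
    (by
      intro v
      simp only [hB]
      split_ifs
      · exact half_meas _ _
      · exact MeasurableSet.univ)
    (by
      intro v
      simp only [hB]
      split_ifs with h
      · exact hGA' D hD1 _ h
      · rw [probReal_univ]; exact hcτ)
    (by
      intro u v huv
      obtain ⟨_, hu, hv, huv'⟩ := huv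
      simp only [hB]
      rw [if_pos hu, if_pos hv]
      exact (hGB s η D _ _ hs hη hD1 huv').trans hexp)
    n (by
      rw [hlogc]
      calc K0 * (1 + D * L) ≤ K0 * (Real.log m + Real.log m) := by gcongr
        _ = 2 * K0 * Real.log m := by ring
        _ ≤ n := hn)
  obtain ⟨C, hC⟩ := hCH (m := m) (c := c) (ε := ε) (fun u v => Rel r η u v) A hcardm hcard0 hA1
    (fun u v huv => ⟨huv.1, hA2 u v huv⟩)
  have h5 := hGC hPLB hTM r β hrpos hβ hfar' q D _ η hη hηr hq4 hD1 C hC
  refine le_trans ?_ h5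
  have h6 := asm_num hβ hη hLpos h3 hDge
  have hpos : 0 < β * Real.exp (η * D / 32) := by positivity
  rw [← Real.log_le_log_iff (by positivity) hpos, Real.log_rpow hm0]
  refine le_trans ?_ h6
  have : 0 ≤ Real.log m := by linarith
  gcongr

end Pool.Agent.U208.SI

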