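import Pool.Agent.U208.SI.Stm

/-! Project SI: lower bound of chiStar. -/

set_option autoImplicit false

namespace Pool.Agent.U208.SI

open Finset

theorem CH_ok' : S_CH := by
  classical
  intro n m c ε V _ R B hcard hpos hB hR
  have hne : Nonempty V := Fintype.card_pos_iff.1 hpos
  obtain ⟨s⟩ : Nonempty (V ↪ Fin m) :=
    Function.Embedding.nonempty_of_card_le (by rwa [Fintype.card_fin])
  set A : Fin m → Finset (Fin n) := fun i => B (Function.invFun s i) with hA
  have A1 : ∀ u : V, A (s u) = B u := fun u => by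
    simp only [hA, Function.leftInverse_invFun s.injective u]
  have A2 : ∀ i, c * n < ((A i).card : ℝ) := fun i => hB _
  have hle : (G A ε).chromaticNumber.toNat ≤ chiStar n m c ε :=
    le_sup (f := fun A => (G A ε).chromaticNumber.toNat) (mem_filter.2 ⟨mem_univ A, A2⟩)
  obtain ⟨col⟩ : (G A ε).Colorable (chiStar n m c ε) :=
    (SimpleGraph.colorable_chromaticNumber_of_fintype (G A ε)).mono hle
  refine ⟨fun v => col (s v), fun u v huv => ?_⟩
  obtain ⟨h1, h2⟩ := hR u v huv
  refine col.valid ⟨fun h => h1 (s.injective h), ?_⟩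
  rw [A1, A1]
  exact h2

end Pool.Agent.U208.SI

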