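import Pool.Agent.U208.SI.Upper

/-! Project SI: both bounds. -/

set_option autoImplicit false

namespace Pool.Agent.U208.SI

theorem combine (h : Fin0) (c : ℝ) (hc0 : 0 < c) (hc : c < 1 / 2) :
    ∃ κ K ε₀ : ℝ, 0 < κ ∧ 0 < K ∧ 0 < ε₀ ∧ ε₀ ≤ 1 / 16 ∧ ∀ ε : ℝ, 0 < ε → ε ≤ ε₀ →
      ∃ (M : ℝ) (m₀ : ℕ), 0 < M ∧ ∀ n m : ℕ, m₀ ≤ m → M * Real.log m ≤ n →
        (m : ℝ) ^ (κ / (Real.log (1 / ε) * Real.log (Real.log (1 / ε)))) ≤ chiStar n m c ε ∧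
          (chiStar n m c ε : ℝ) ≤ (m : ℝ) ^ (K / Real.log (1 / ε)) := by
  obtain ⟨κ, ε₀, hκ, hε₀, hε₀', h⟩ := h c hc0 hc
  refine ⟨κ, 4 * Real.log (1 / c), min ε₀ (c ^ 2), hκ, ?_, lt_min hε₀ (by positivity),
    (min_le_left _ _).trans hε₀', fun ε hε hεle => ?_⟩
  · have : 0 < Real.log (1 / c) := Real.log_pos (by rw [one_lt_div hc0]; linarith)
    linarith
  · obtain ⟨M, m₀, hM, h1⟩ := h ε hε (hεle.trans (min_le_left _ _))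
    obtain ⟨m₁, h2⟩ := upper' c hc0 (by linarith) ε hε (hεle.trans (min_le_right _ _))
    exact ⟨M, max m₀ m₁, hM, fun n m hm hn => ⟨h1 n m ((le_max_left _ _).trans hm) hn,
      h2 n m ((le_max_right _ _).trans hm)⟩⟩

end Pool.Agent.U208.SI
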