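import Pool.Agent.U208.SI.Stm

/-! Project SI: the total mass is positive and finite. -/

set_option autoImplicit false

namespace Pool.Agent.U208.SI

open Finset MeasureTheory ProbabilityTheory
open scoped ENNReal

theorem box_eq (D : ℕ) : box D = Set.Icc (-1) 1 := by
  ext x
  simp only [box, Set.mem_setOf_eq, Set.mem_Icc, Pi.le_def, abs_le, forall_and, Pi.neg_apply,
    Pi.one_apply]

theorem box_meas (D : ℕ) : MeasurableSet (box D) := by
  rw [box_eq]; exact measurableSet_Icc

theorem sq_meas (D : ℕ) : Measurable (sq : (Fin D → ℝ) → ℝ) :=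
  Finset.measurable_sum _ fun i _ => (measurable_pi_apply i).pow_const 2

theorem sq_nonneg' {D : ℕ} (x : Fin D → ℝ) : 0 ≤ sq x := Finset.sum_nonneg fun i _ => sq_nonneg _

theorem mu_univ (D : ℕ) : mu D Set.univ =
    ∫⁻ x in box D, ENNReal.ofReal (Real.exp (-(sq x / 2))) := by
  rw [mu, withDensity_apply _ MeasurableSet.univ, Measure.restrict_univ]

theorem TM_ok : S_TM := by
  intro D
  have hvol : volume (box D) ≠ 0 ∧ volume (box D) ≠ ⊤ := by
    rw [box_eq, Real.volume_Icc_pi]
    constructor
    · rw [Finset.prod_ne_zero_iff]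
      intro i _
      simp only [Pi.one_apply, Pi.neg_apply, ne_eq, ENNReal.ofReal_eq_zero, not_le]
      norm_num
    · exact ENNReal.prod_ne_top fun i _ => ENNReal.ofReal_ne_top
  rw [mu_univ]
  constructor
  · have h1 : ENNReal.ofReal (Real.exp (-(D / 2))) * volume (box D) ≤
        ∫⁻ x in box D, ENNReal.ofReal (Real.exp (-(sq x / 2))) := by
      rw [← setLIntegral_const]
      refine setLIntegral_mono' (box_meas D) fun x hx => ?_
      have : sq x ≤ D := by
        calc sq x ≤ ∑ _i : Fin D, (1 : ℝ) := Finset.sum_le_sum fun i _ => by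
              have := hx i
              rw [← sq_abs]
              exact pow_le_one₀ (abs_nonneg _) this
          _ = D := by simp
      gcongr
    intro h0
    rw [h0] at h1
    have h2 : 0 < ENNReal.ofReal (Real.exp (-(D / 2))) * volume (box D) := by
      refine ENNReal.mul_pos ?_ hvol.1
      simp [ENNReal.ofReal_eq_zero, Real.exp_pos]
    exact absurd h1 (not_le.2 h2)
  · have h1 : ∫⁻ x in box D, ENNReal.ofReal (Real.exp (-(sq x / 2))) ≤
        1 * volume (box D) := by
      rw [← setLIntegral_const]
      refine setLIntegral_mono' (box_meas D) fun x hx => ?_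
      rw [← ENNReal.ofReal_one]
      apply ENNReal.ofReal_le_ofReal
      rw [Real.exp_le_one_iff]
      have := sq_nonneg' x
      linarith
    rw [one_mul] at h1
    exact ne_top_of_le_ne_top hvol.2 h1

end Pool.Agent.U208.SI

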