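import Pool.Agent.U208.SI.Asm
import Pool.Agent.U208.SI.TM
import Pool.Agent.U208.SI.CH
import Pool.Agent.U208.SI.Combine
import Pool.Agent.U20.SI.SA
import Pool.Agent.U95.SI.PLB
import Pool.Agent.U446.SI.GM
import Pool.Agent.U580.SI.GC
import Pool.Agent.U739.SI.GA
import Pool.Agent.U863.SI.GB
import Pool.Agent.U88.SI.NU

/-! Project SI: the theorem (packages by helper20, helper88, helper95, helper446, helper580,
helper739, helper863 and helper208). -/

set_option autoImplicit false

namespace Pool.Agent.U208.SI

theorem fin0_ok : Fin0 :=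
  asm CH_ok' SA_ok PLB_ok GM_ok TM_ok GC_ok GA_ok GB_ok NU_ok

end Pool.Agent.U208.SI
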