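import Pool.Agent.U580.SI.GC
import Pool.Agent.U95.SI.PLB

/-! Project SI, second part: weights of the cells and sets without related pairs. -/

set_option autoImplicit false

namespace Pool.Agent.U208.SI

open Finset MeasureTheory ProbabilityTheory
open scoped ENNReal

/-- the weight of a cell -/
noncomputable def wc {D q : ℕ} (v : Fin D → Fin (2 * q)) : ℝ :=
  (mu D (gcell v)).toReal / (mu D Set.univ).toReal

theorem cells_disjoint {D q : ℕ} (hq : 0 < q) {u v : Fin D → Fin (2 * q)} (h : u ≠ v) :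
    Disjoint (gcell u) (gcell v) := by
  rw [Set.disjoint_left]
  intro x hx hy
  apply h
  funext i
  have hq' : (0 : ℝ) < q := by exact_mod_cast hq
  obtain ⟨h1, h2⟩ := hx i (Set.mem_univ i)
  obtain ⟨h3, h4⟩ := hy i (Set.mem_univ i)
  unfold pt at h1 h2 h3 h4
  have e1 : ((u i : ℕ) : ℝ) / q < (((v i : ℕ) : ℝ) + 1) / q := by
    rw [add_div]; linarith
  have e2 : ((v i : ℕ) : ℝ) / q < (((u i : ℕ) : ℝ) + 1) / q := by
    rw [add_div]; linarith
  rw [div_lt_div_iff_of_pos_right hq'] at e1 e2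
  have e3 : (u i : ℕ) < (v i : ℕ) + 1 := by exact_mod_cast e1
  have e4 : (v i : ℕ) < (u i : ℕ) + 1 := by exact_mod_cast e2
  exact Fin.ext (by omega)

/-- sets of far points without related pairs have small weight -/
theorem indep_weight (hPLB : S_PLB) (hTM : S_TM) {r η : ℝ} (hr : 0 < r) {q D : ℕ} (hη : 0 < η)
    (hηr : η ≤ r) (hq4 : 4 ≤ Real.sqrt η * q) (hD : 1 ≤ D) (J : Finset (Fin D → Fin (2 * q)))
    (hJ : ∀ v ∈ J, r * D ≤ sq (pt v)) (hJ2 : ∀ u ∈ J, ∀ v ∈ J, ¬ Rel r η u v) :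
    ∑ v ∈ J, wc v ≤ Real.exp (-(η * D / 32)) := by
  classical
  have hq : 0 < q := by
    rcases Nat.eq_zero_or_pos q with h | h
    · rw [h] at hq4
      simp at hq4
      linarith
    · exact h
  have hq' : (0 : ℝ) < q := by exact_mod_cast hq
  have hD' : (1 : ℝ) ≤ D := by exact_mod_cast hD
  have hD0 : (0 : ℝ) < D := by linarith
  obtain ⟨s, hs⟩ : ∃ s : ℝ, s = √(η * D) := ⟨_, rfl⟩
  obtain ⟨t, ht⟩ : ∃ t : ℝ, t = √(r * D) := ⟨_, rfl⟩
  have hs0 : 0 ≤ s := by rw [hs]; exact Real.sqrt_nonneg _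
  have hst : s ≤ t := by
    rw [hs, ht]
    exact Real.sqrt_le_sqrt (mul_le_mul_of_nonneg_right hηr hD0.le)
  have hs2 : s ^ 2 = η * D := by rw [hs]; exact Real.sq_sqrt (by positivity)
  have hδ : 1 / (q : ℝ) * √(D : ℝ) ≤ s / 4 := by
    rw [hs, Real.sqrt_mul hη.le]
    have h1 : 1 / (q : ℝ) ≤ √η / 4 := by
      rw [div_le_div_iff₀ hq' (by norm_num)]
      linarith
    have h2 := mul_le_mul_of_nonneg_right h1 (Real.sqrt_nonneg (D : ℝ))
    linarith
  have hnear : ∀ (v : Fin D → Fin (2 * q)) (x : Fin D → ℝ), x ∈ gcell v →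
      gcn (x - pt v) ≤ s / 4 := fun v x hx => (gcell_near hq v x hx).trans hδ
  set A : Set (Fin D → ℝ) := ⋃ v ∈ J, gcell v with hA
  have hAm : MeasurableSet A := MeasurableSet.biUnion (Set.to_countable _) fun v _ => gcell_meas v
  have hmemA : ∀ x, x ∈ A ↔ ∃ v ∈ J, x ∈ gcell v := by
    intro x
    rw [hA]
    simp only [Set.mem_iUnion, exists_prop]
  have hAbox : A ⊆ box D := by
    intro x hx
    obtain ⟨v, _, hv⟩ := (hmemA x).1 hx
    exact gcell_box hq v hv
  have hsum : ∀ x ∈ A, ∀ y ∈ A, η * D / 4 ≤ sq (x + y) := by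
    intro x hx y hy
    obtain ⟨u, hu1, hu3⟩ := (hmemA x).1 hx
    obtain ⟨v, hv1, hv3⟩ := (hmemA y).1 hy
    have hu2 := hJ u hu1
    have hv2 := hJ v hv1
    have n1 := hnear u x hu3
    have n2 := hnear v y hv3
    have e1 : x + y = (pt u + pt v) + ((x - pt u) + (y - pt v)) := by
      ext i
      simp only [Pi.add_apply, Pi.sub_apply]
      ring
    have n3 := gcn_ge (pt u + pt v) ((x - pt u) + (y - pt v))
    have n4 := gcn_add (x - pt u) (y - pt v)
    rw [← e1] at n3
    have hmain : s ≤ gcn (pt u + pt v) := by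
      by_cases huv : u = v
      · subst huv
        have h1 : t ≤ gcn (pt u) := by rw [ht]; exact le_gcn _ (by positivity) hu2
        have h2 : gcn (pt u + pt u) = 2 * gcn (pt u) := by
          have h3 : gcn (pt u + pt u) ^ 2 = (2 * gcn (pt u)) ^ 2 := by
            rw [mul_pow, gcn_sq, gcn_sq]
            unfold sq
            rw [Finset.mul_sum]
            refine Finset.sum_congr rfl fun i _ => ?_
            rw [Pi.add_apply]
            ring
          exact (pow_left_inj₀ (gcn_nonneg _) (mul_nonneg zero_le_two (gcn_nonneg _))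
            two_ne_zero).1 h3
        rw [h2]
        linarith
      · have h1 : ¬ Rel r η u v := hJ2 u hu1 v hv1
        have h2 : ¬ sq (pt u + pt v) ≤ η * D := fun h => h1 ⟨huv, hu2, hv2, h⟩
        rw [hs]
        exact le_gcn _ (by positivity) (not_le.1 h2).le
    have h5 : s / 2 ≤ gcn (x + y) := by linarith
    have h6 := pow_le_pow_left₀ (by linarith) h5 2
    rw [gcn_sq, div_pow, hs2] at h6
    linarith
  have hAmu : mu D A ≤ ENNReal.ofReal (Real.exp (-(η * D / 32))) * mu D Set.univ := by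
    have h := hPLB D A (η * D / 4) hAm hAbox hsum
    have e1 : η * D / 4 / 8 = η * D / 32 := by ring
    rwa [e1] at h
  obtain ⟨hT0, hTt⟩ := hTM D
  have hfin : ∀ S : Set (Fin D → ℝ), mu D S ≠ ⊤ := fun S =>
    ne_top_of_le_ne_top hTt (measure_mono (Set.subset_univ _))
  have hAsum : mu D A = ∑ v ∈ J, mu D (gcell v) := by
    rw [hA, measure_biUnion_finset ?_ fun v _ => gcell_meas v]
    intro u _ v _ huv
    exact cells_disjoint hq huv
  have hTpos : 0 < (mu D Set.univ).toReal := ENNReal.toReal_pos hT0 hTt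
  have h1 : ∑ v ∈ J, wc v = (mu D A).toReal / (mu D Set.univ).toReal := by
    unfold wc
    rw [← Finset.sum_div, hAsum, ENNReal.toReal_sum fun v _ => hfin _]
  rw [h1, div_le_iff₀ hTpos]
  have h2 := ENNReal.toReal_mono (ENNReal.mul_ne_top ENNReal.ofReal_ne_top hTt) hAmu
  rwa [ENNReal.toReal_mul, ENNReal.toReal_ofReal (Real.exp_pos _).le] at h2

/-- the far points have a positive proportion of the weight -/
theorem total_weight (hTM : S_TM) {r β : ℝ} (hr : 0 < r) (hβ : 0 < β) (hFar : Far (4 * r) β)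
    {q D : ℕ} {η : ℝ} (hη : 0 < η) (hηr : η ≤ r) (hq4 : 4 ≤ Real.sqrt η * q) (hD : 1 ≤ D)
    (J : Finset (Fin D → Fin (2 * q))) (hJ : ∀ v, r * D ≤ sq (pt v) → v ∈ J) :
    β ≤ ∑ v ∈ J, wc v := by
  classical
  have hq : 0 < q := by
    rcases Nat.eq_zero_or_pos q with h | h
    · rw [h] at hq4
      simp at hq4
      linarith
    · exact h
  have hq' : (0 : ℝ) < q := by exact_mod_cast hq
  have hD' : (1 : ℝ) ≤ D := by exact_mod_cast hD
  have hD0 : (0 : ℝ) < D := by linarith
  obtain ⟨s, hs⟩ : ∃ s : ℝ, s = √(η * D) := ⟨_, rfl⟩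
  obtain ⟨t, ht⟩ : ∃ t : ℝ, t = √(r * D) := ⟨_, rfl⟩
  have hs0 : 0 ≤ s := by rw [hs]; exact Real.sqrt_nonneg _
  have hst : s ≤ t := by
    rw [hs, ht]
    exact Real.sqrt_le_sqrt (mul_le_mul_of_nonneg_right hηr hD0.le)
  have ht2 : t ^ 2 = r * D := by rw [ht]; exact Real.sq_sqrt (by positivity)
  have hδ : 1 / (q : ℝ) * √(D : ℝ) ≤ s / 4 := by
    rw [hs, Real.sqrt_mul hη.le]
    have h1 : 1 / (q : ℝ) ≤ √η / 4 := by
      rw [div_le_div_iff₀ hq' (by norm_num)]
      linarith
    have h2 := mul_le_mul_of_nonneg_right h1 (Real.sqrt_nonneg (D : ℝ))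
    linarith
  have hnear : ∀ (v : Fin D → Fin (2 * q)) (x : Fin D → ℝ), x ∈ gcell v →
      gcn (x - pt v) ≤ s / 4 := fun v x hx => (gcell_near hq v x hx).trans hδ
  have hac : mu D ≪ volume.restrict (box D) := withDensity_absolutelyContinuous _ _
  have hbox : ∀ᵐ x ∂(mu D), x ∈ box D := hac.ae_le (ae_restrict_mem (box_meas D))
  have hone : ∀ᵐ x ∂(mu D), ∀ i, x i ≠ 1 := by
    rw [ae_all_iff]
    intro i
    have h1 : ∀ᵐ x : Fin D → ℝ, x i ≠ 1 := by
      rw [ae_iff]
      simp only [not_not]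
      rw [volume_pi]
      exact Measure.pi_hyperplane _ i 1
    exact hac.ae_le (ae_restrict_of_ae h1)
  have hcov : mu D {x | 4 * r * D ≤ sq x} ≤ mu D (⋃ v ∈ J, gcell v) := by
    refine measure_mono_ae ?_
    filter_upwards [hbox, hone] with x hx1 hx2 hx3
    have hx3' : 4 * r * D ≤ sq x := hx3
    show x ∈ ⋃ v ∈ J, gcell v
    have hlt : ∀ i, x i < 1 := fun i => lt_of_le_of_ne (abs_le.1 (hx1 i)).2 (hx2 i)
    have hge : ∀ i, -1 ≤ x i := fun i => (abs_le.1 (hx1 i)).1
    have hnn : ∀ i, 0 ≤ (q : ℝ) * (x i + 1) := fun i => mul_nonneg hq'.le (by linarith [hge i])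
    obtain ⟨v, hv⟩ : ∃ v : Fin D → Fin (2 * q), ∀ i, ((v i : ℕ)) = ⌊(q : ℝ) * (x i + 1)⌋₊ := by
      refine ⟨fun i => ⟨⌊(q : ℝ) * (x i + 1)⌋₊, ?_⟩, fun i => rfl⟩
      rw [Nat.floor_lt (hnn i)]
      push_cast
      nlinarith [hlt i]
    have hcell : x ∈ gcell v := by
      intro i _
      have h1 := Nat.floor_le (hnn i)
      have h2 := Nat.lt_floor_add_one ((q : ℝ) * (x i + 1))
      rw [← hv i] at h1 h2
      unfold pt
      constructor
      · rw [sub_le_iff_le_add, div_le_iff₀ hq']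
        linarith
      · have : ((v i : ℕ) : ℝ) / q - 1 + 1 / q = (((v i : ℕ) : ℝ) + 1) / q - 1 := by ring
        rw [this, lt_sub_iff_add_lt, lt_div_iff₀ hq']
        linarith
    have h1 : 2 * t ≤ gcn x := by
      have h2 : (2 * t) ^ 2 ≤ gcn x ^ 2 := by
        rw [gcn_sq, mul_pow, ht2]
        linarith
      exact le_of_sq_le_sq h2 (gcn_nonneg x)
    have h2 : gcn x - gcn (x - pt v) ≤ gcn (pt v) := by
      have h3 := gcn_add (pt v) (x - pt v)
      rw [add_sub_cancel] at h3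
      linarith
    have h3 := hnear v x hcell
    have ht0 : 0 ≤ t := hs0.trans hst
    have h4 : t ≤ gcn (pt v) := by linarith
    have h5 := pow_le_pow_left₀ ht0 h4 2
    rw [gcn_sq, ht2] at h5
    simp only [Set.mem_iUnion]
    exact ⟨v, hJ v h5, hcell⟩
  obtain ⟨hT0, hTt⟩ := hTM D
  have hfin : ∀ S : Set (Fin D → ℝ), mu D S ≠ ⊤ := fun S =>
    ne_top_of_le_ne_top hTt (measure_mono (Set.subset_univ _))
  have hTpos : 0 < (mu D Set.univ).toReal := ENNReal.toReal_pos hT0 hTt
  have h1 : ENNReal.ofReal β * mu D Set.univ ≤ ∑ v ∈ J, mu D (gcell v) :=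
    (hFar D hD).trans (hcov.trans (measure_biUnion_finset_le _ _))
  have h2 := ENNReal.toReal_mono (ENNReal.sum_ne_top.2 fun v _ => hfin _) h1
  rw [ENNReal.toReal_mul, ENNReal.toReal_ofReal hβ.le, ENNReal.toReal_sum fun v _ => hfin _] at h2
  unfold wc
  rw [← Finset.sum_div, le_div_iff₀ hTpos]
  exact h2

/-- a lower bound for the weights -/
theorem wc_ge (hTM : S_TM) {q D : ℕ} (hq : 1 ≤ q) (v : Fin D → Fin (2 * q)) :
    ((4 * (q : ℝ)) ^ D)⁻¹ ≤ wc v := by
  have hq0 : 0 < q := hq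
  have hq' : (0 : ℝ) < q := by exact_mod_cast hq0
  obtain ⟨hT0, hTt⟩ := hTM D
  have hTpos : 0 < (mu D Set.univ).toReal := ENNReal.toReal_pos hT0 hTt
  have hvol : volume (gcell v) = ENNReal.ofReal ((1 / q) ^ D) := by
    unfold gcell
    rw [volume_pi, Measure.pi_pi]
    simp only [Real.volume_Ico, add_sub_cancel_left]
    rw [Finset.prod_const, Finset.card_univ, Fintype.card_fin, ENNReal.ofReal_pow (by positivity)]
  have hsub := gcell_box hq0 v
  have h1 : ENNReal.ofReal (Real.exp (-(D / 2)) * (1 / q) ^ D) ≤ mu D (gcell v) := by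
    rw [mu, withDensity_apply _ (gcell_meas v), Measure.restrict_restrict (gcell_meas v),
      Set.inter_eq_left.2 hsub, ENNReal.ofReal_mul (Real.exp_pos _).le, ← hvol,
      ← setLIntegral_const]
    refine setLIntegral_mono' (gcell_meas v) fun x hx => ?_
    have : sq x ≤ D := by
      calc sq x ≤ ∑ _i : Fin D, (1 : ℝ) := Finset.sum_le_sum fun i _ => by
            have := hsub hx i
            rw [← sq_abs]
            exact pow_le_one₀ (abs_nonneg _) this
        _ = D := by simp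
    gcongr
  have h2 : mu D Set.univ ≤ ENNReal.ofReal (2 ^ D) := by
    have hvb : volume (box D) = ENNReal.ofReal (2 ^ D) := by
      have : box D = Set.univ.pi fun _ => Set.Icc (-1 : ℝ) 1 := by
        ext x
        constructor
        · intro h i _
          exact abs_le.1 (h i)
        · intro h i
          exact abs_le.2 (h i (Set.mem_univ i))
      rw [this, volume_pi, Measure.pi_pi]
      simp only [Real.volume_Icc]
      rw [Finset.prod_const, Finset.card_univ, Fintype.card_fin, ← ENNReal.ofReal_pow (by norm_num)]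
      norm_num
    rw [mu, withDensity_apply _ MeasurableSet.univ, Measure.restrict_univ, ← hvb,
      ← one_mul (volume (box D)), ← setLIntegral_const]
    refine setLIntegral_mono' (box_meas D) fun x _ => ?_
    rw [← ENNReal.ofReal_one]
    apply ENNReal.ofReal_le_ofReal
    rw [Real.exp_le_one_iff]
    have : 0 ≤ sq x := Finset.sum_nonneg fun i _ => sq_nonneg _
    linarith
  have h1' := ENNReal.toReal_mono (ne_top_of_le_ne_top hTt (measure_mono (Set.subset_univ _))) h1
  rw [ENNReal.toReal_ofReal (by positivity)] at h1'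
  have h2' := ENNReal.toReal_mono ENNReal.ofReal_ne_top h2
  rw [ENNReal.toReal_ofReal (by positivity)] at h2'
  unfold wc
  rw [le_div_iff₀ hTpos]
  refine le_trans ?_ h1'
  have h3 : (Real.exp (-(1 / 2)) : ℝ) ^ D = Real.exp (-(D / 2)) := by
    rw [← Real.exp_nat_mul]; congr 1; ring
  have h4 : (1 / 2 : ℝ) ≤ Real.exp (-(1 / 2)) := by
    have := Real.add_one_le_exp (-(1 / 2) : ℝ)
    linarith
  calc ((4 * (q : ℝ)) ^ D)⁻¹ * (mu D Set.univ).toReal ≤ ((4 * (q : ℝ)) ^ D)⁻¹ * 2 ^ D := by gcongr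
    _ = (1 / 2) ^ D * (1 / q) ^ D := by
        rw [← mul_pow, ← inv_pow, ← mul_pow]
        congr 1
        field_simp
        norm_num
    _ ≤ (Real.exp (-(1 / 2))) ^ D * (1 / q) ^ D := by gcongr
    _ = _ := by rw [h3]

end Pool.Agent.U208.SI
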