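import Mathlib

/-!
Project SI (helper208): chromatic number of small-intersection graphs of set systems
(MP_3a192b_co): the exponent is at least a constant times `1 / (log (1/ε) log log (1/ε))`.
-/

set_option autoImplicit false

namespace Pool.Agent.U208.SI

open Finset MeasureTheory ProbabilityTheory
open scoped ENNReal

/-- The graph `G(A, ε)`: distinct indices are adjacent iff the sets meet in less than `ε n`
points. -/
def G {n m : ℕ} (A : Fin m → Finset (Fin n)) (ε : ℝ) : SimpleGraph (Fin m) where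
  Adj i j := i ≠ j ∧ (((A i ∩ A j).card : ℝ) < ε * n)
  symm := ⟨fun i j h => ⟨h.1.symm, by rw [inter_comm]; exact h.2⟩⟩
  loopless := ⟨fun _ h => h.1 rfl⟩

open Classical in
/-- The largest chromatic number of `G(A, ε)` over all families of `m` subsets of an `n`-set, each
of size `> c n`. -/
noncomputable def chiStar (n m : ℕ) (c ε : ℝ) : ℕ :=
  (univ.filter (fun A : Fin m → Finset (Fin n) => ∀ k, c * n < ((A k).card : ℝ))).sup
    (fun A => (G A ε).chromaticNumber.toNat)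

/-- Package CH: lower bound of `chiStar` by a relation on at most `m` elements. -/
def S_CH : Prop := ∀ {n m : ℕ} {c ε : ℝ} {V : Type} [Fintype V] (R : V → V → Prop)
  (B : V → Finset (Fin n)), Fintype.card V ≤ m → 0 < Fintype.card V →
  (∀ v, c * n < ((B v).card : ℝ)) →
  (∀ u v, R u v → u ≠ v ∧ ((B u ∩ B v).card : ℝ) < ε * n) →
  ∃ C : V → Fin (chiStar n m c ε), ∀ u v, R u v → C u ≠ C v

/-- Package SA: sampling of sets of points of a probability space. -/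
def S_SA : Prop := ∀ τ ε : ℝ, 0 < τ → 0 < ε → ∃ K : ℝ, 0 < K ∧
  ∀ {Ω : Type} [MeasurableSpace Ω] (P : Measure Ω) [IsProbabilityMeasure P]
  {V : Type} [Fintype V] [Nonempty V] (B : V → Set Ω) (R : V → V → Prop) (c : ℝ),
  (∀ v, MeasurableSet (B v)) → (∀ v, c + τ ≤ P.real (B v)) →
  (∀ u v, R u v → P.real (B u ∩ B v) ≤ ε / 2) →
  ∀ n : ℕ, K * (1 + Real.log (Fintype.card V)) ≤ n →
  ∃ A : V → Finset (Fin n), (∀ v, c * n < ((A v).card : ℝ)) ∧
    ∀ u v, R u v → ((A u ∩ A v).card : ℝ) < ε * n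

/-- The sum of the squares. -/
def sq {D : ℕ} (x : Fin D → ℝ) : ℝ := ∑ i, x i ^ 2

/-- The cube. -/
def box (D : ℕ) : Set (Fin D → ℝ) := {x | ∀ i, |x i| ≤ 1}

/-- The Gaussian weight restricted to the cube. -/
noncomputable def mu (D : ℕ) : Measure (Fin D → ℝ) :=
  (volume.restrict (box D)).withDensity fun x => ENNReal.ofReal (Real.exp (-(sq x / 2)))

/-- Package PLB: sets without almost antipodal points are small. -/
def S_PLB : Prop := ∀ (D : ℕ) (A : Set (Fin D → ℝ)) (Δ : ℝ), MeasurableSet A → A ⊆ box D →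
  (∀ x ∈ A, ∀ y ∈ A, Δ ≤ sq (x + y)) →
  mu D A ≤ ENNReal.ofReal (Real.exp (-(Δ / 8))) * mu D Set.univ

/-- A positive proportion of the cube is far from the origin. -/
def Far (r β : ℝ) : Prop := ∀ D : ℕ, 1 ≤ D →
  ENNReal.ofReal β * mu D Set.univ ≤ mu D {x | r * D ≤ sq x}

/-- Package GM. -/
def S_GM : Prop := ∃ r β : ℝ, 0 < r ∧ 0 < β ∧ Far r β

/-- The total mass is positive and finite. -/
def S_TM : Prop := ∀ D : ℕ, mu D Set.univ ≠ 0 ∧ mu D Set.univ ≠ ⊤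

/-- The points of the grid. -/
noncomputable def pt {D q : ℕ} (v : Fin D → Fin (2 * q)) : Fin D → ℝ :=
  fun i => ((v i : ℕ) : ℝ) / q - 1

/-- The relation on the grid: both points are far from the origin and almost antipodal. -/
def Rel (r η : ℝ) {D q : ℕ} (u v : Fin D → Fin (2 * q)) : Prop :=
  u ≠ v ∧ r * D ≤ sq (pt u) ∧ r * D ≤ sq (pt v) ∧ sq (pt u + pt v) ≤ η * D

/-- Package GC: colourings of the grid. -/
def S_GC : Prop := S_PLB → S_TM → ∀ r β : ℝ, 0 < r → 0 < β → Far (4 * r) β →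
  ∀ (q D k : ℕ) (η : ℝ), 0 < η → η ≤ r → 4 ≤ Real.sqrt η * q → 1 ≤ D →
  ∀ C : (Fin D → Fin (2 * q)) → Fin k, (∀ u v, Rel r η u v → C u ≠ C v) →
  β * Real.exp (η * D / 32) ≤ k

/-- The standard Gaussian measure. -/
noncomputable def gam (D : ℕ) : Measure (Fin D → ℝ) := Measure.pi fun _ => gaussianReal 0 1

/-- The half-space of `v` at height `s √D`. -/
def half {D : ℕ} (s : ℝ) (v : Fin D → ℝ) : Set (Fin D → ℝ) :=
  {x | s * Real.sqrt D < ∑ i, v i * x i}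

/-- Package GA: half-spaces of long vectors have measure almost one half. -/
def S_GA : Prop := ∀ c r : ℝ, c < 1 / 2 → 0 < r → ∃ s τ : ℝ, 0 < s ∧ 0 < τ ∧ c + τ ≤ 1 ∧
  ∀ D : ℕ, 1 ≤ D → ∀ v : Fin D → ℝ, r * D ≤ sq v → c + τ ≤ (gam D).real (half s v)

/-- Package GB: almost opposite half-spaces have a small intersection. -/
def S_GB : Prop := ∀ (s η : ℝ) (D : ℕ) (u v : Fin D → ℝ), 0 < s → 0 < η → 1 ≤ D →
  sq (u + v) ≤ η * D → (gam D).real (half s u ∩ half s v) ≤ Real.exp (-(2 * s ^ 2 / η))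

/-- Package NU: numerical choices. -/
def S_NU : Prop := ∀ s r : ℝ, 0 < s → 0 < r → ∃ κ ε₀ : ℝ, 0 < κ ∧ 0 < ε₀ ∧ ε₀ ≤ 1 / 16 ∧
  ∀ ε : ℝ, 0 < ε → ε ≤ ε₀ → ∃ (η : ℝ) (q : ℕ), 0 < η ∧ η ≤ r ∧
    Real.exp (-(2 * s ^ 2 / η)) ≤ ε / 2 ∧ 4 ≤ Real.sqrt η * q ∧ 1 ≤ q ∧
    κ / (Real.log (1 / ε) * Real.log (Real.log (1 / ε))) ≤ η / (128 * Real.log (2 * q))

/-- The result. -/
def Fin0 : Prop := ∀ c : ℝ, 0 < c → c < 1 / 2 → ∃ κ ε₀ : ℝ, 0 < κ ∧ 0 < ε₀ ∧ ε₀ ≤ 1 / 16 ∧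
  ∀ ε : ℝ, 0 < ε → ε ≤ ε₀ → ∃ (K : ℝ) (m₀ : ℕ), 0 < K ∧ ∀ n m : ℕ, m₀ ≤ m →
    K * Real.log m ≤ n →
    (m : ℝ) ^ (κ / (Real.log (1 / ε) * Real.log (Real.log (1 / ε)))) ≤ chiStar n m c ε

end Pool.Agent.U208.SI
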