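import Pool.Agent.U208.SI.Ind
import Pool.Agent.U208.SI.Final
import Pool.Agent.K1H44.DenseSys.Lower

/-! Project SI, second part: the largest intersecting subfamilies (MP_cecf76_co). -/

set_option autoImplicit false

namespace Pool.Agent.U208.SI

open Finset MeasureTheory ProbabilityTheory
open scoped ENNReal
open Pool.Agent.K1H44.DenseSys (f Intersecting f_mem)

/-- a sequence with multiplicities proportional to given weights -/
theorem mult {V : Type} [Fintype V] [DecidableEq V] (w : V → ℝ) {β : ℝ} (hβ : 0 < β)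
    (hsum : β ≤ ∑ v, w v) (m : ℕ) (hm : ∀ v, 1 ≤ m * w v) :
    ∃ e : Fin m → V, ∀ v, (((univ.filter fun i => e i = v).card : ℕ) : ℝ) ≤
      (1 + 1 / β) * (m * w v) := by
  classical
  set N : V → ℕ := fun v => ⌈m * w v / β⌉₊ with hN
  have h1 : m ≤ ∑ v, N v := by
    have : (m : ℝ) ≤ ((∑ v, N v : ℕ) : ℝ) := by
      calc (m : ℝ) = m * β / β := by field_simp
        _ ≤ m * (∑ v, w v) / β := by gcongr
        _ = ∑ v, m * w v / β := by rw [Finset.mul_sum, Finset.sum_div]
        _ ≤ ∑ v, (N v : ℝ) := Finset.sum_le_sum fun v _ => Nat.le_ceil _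
        _ = _ := by push_cast; rfl
    exact_mod_cast this
  obtain ⟨s⟩ : Nonempty (Fin m ↪ (Σ v, Fin (N v))) := by
    apply Function.Embedding.nonempty_of_card_le
    rw [Fintype.card_fin, Fintype.card_sigma]
    simpa using h1
  refine ⟨fun i => (s i).1, fun v => ?_⟩
  have h2 : (univ.filter fun i => (s i).1 = v).card ≤ N v := by
    have h3 : ((univ.filter fun i => (s i).1 = v).map s) ⊆
        (univ : Finset (Fin (N v))).image (fun j => (⟨v, j⟩ : Σ v, Fin (N v))) := by
      intro p hp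
      obtain ⟨i, hi, rfl⟩ := Finset.mem_map.1 hp
      have hi2 := (Finset.mem_filter.1 hi).2
      rw [Finset.mem_image]
      subst hi2
      exact ⟨(s i).2, Finset.mem_univ _, rfl⟩
    have h4 := Finset.card_le_card h3
    rw [Finset.card_map] at h4
    refine h4.trans (Finset.card_image_le.trans ?_)
    simp
  calc (((univ.filter fun i => (s i).1 = v).card : ℕ) : ℝ) ≤ N v := by exact_mod_cast h2
    _ ≤ m * w v / β + 1 := (Nat.ceil_lt_add_one (by have := hm v; positivity)).le
    _ ≤ m * w v / β + m * w v := by linarith [hm v]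
    _ = _ := by ring

theorem upp_num {B η L4 L2 x D : ℝ} (hη : 0 < η) (hL4 : 0 < L4) (hL2 : 0 < L2)
    (hL : L4 ≤ 2 * L2) (hx : 0 ≤ x) (h : 64 * L4 / η * (η / 32 + B) ≤ x)
    (hD : x / L4 - 1 ≤ D) : B + x - η * D / 32 ≤ (1 - η / (128 * L2)) * x := by
  have h1 : η * (x / L4 - 1) / 32 ≤ η * D / 32 := by gcongr
  have h2 : η / 32 + B ≤ η / (64 * L4) * x := by
    calc η / 32 + B = η / (64 * L4) * (64 * L4 / η * (η / 32 + B)) := by field_simp
      _ ≤ _ := by gcongr
  have h4 : η * (x / L4 - 1) / 32 = η / (64 * L4) * x + η / (64 * L4) * x - η / 32 := by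
    field_simp
    ring
  have h5 : η / (128 * L2) * x ≤ η / (64 * L4) * x := by
    apply mul_le_mul_of_nonneg_right _ hx
    apply div_le_div_of_nonneg_left hη.le (by positivity)
    linarith
  linarith

theorem f_upper (c : ℝ) (hc0 : 0 < c) (hc : c < 1 / 2) :
    ∃ κ ε₀ : ℝ, 0 < κ ∧ 0 < ε₀ ∧ ε₀ ≤ 1 / 16 ∧ ∀ ε : ℝ, 0 < ε → ε ≤ ε₀ →
      ∃ (K : ℝ) (m₀ : ℕ), 0 < K ∧ ∀ n m : ℕ, m₀ ≤ m → K * Real.log m ≤ n →
        (f n m c ε : ℝ) ≤
          (m : ℝ) ^ (1 - κ / (Real.log (1 / ε) * Real.log (Real.log (1 / ε)))) := by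
  classical
  have hTM := TM_ok
  have hPLB := PLB_ok
  obtain ⟨r0, β, hr0, hβ, hfar⟩ := GM_ok
  set r : ℝ := r0 / 4 with hr
  have hrpos : 0 < r := by positivity
  have hfar' : Far (4 * r) β := by
    have : 4 * r = r0 := by rw [hr]; ring
    rw [this]; exact hfar
  obtain ⟨s, τ, hs, hτ, hcτ, hGA'⟩ := GA_ok c r hc hrpos
  obtain ⟨κ, ε₀, hκ, hε₀, hε₀', hNU'⟩ := NU_ok s r hs hrpos
  refine ⟨κ, ε₀, hκ, hε₀, hε₀', fun ε hε hεle => ?_⟩
  obtain ⟨η, q, hη, hηr, hexp, hq4, hq1, hk⟩ := hNU' ε hε hεle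
  obtain ⟨K0, hK0, hSA'⟩ := SA_ok τ ε hτ hε
  have hq1' : (1 : ℝ) ≤ q := by exact_mod_cast hq1
  set L2 : ℝ := Real.log (2 * q) with hL2
  set L : ℝ := Real.log (4 * q) with hL
  have hL2pos : 0 < L2 := Real.log_pos (by linarith)
  have hLpos : 0 < L := Real.log_pos (by linarith)
  have hLL : L ≤ 2 * L2 := by
    have e1 : 2 * L2 = Real.log ((2 * q) ^ 2) := by rw [Real.log_pow]; push_cast; rfl
    rw [e1]
    apply Real.log_le_log (by positivity)
    nlinarith
  set B0 : ℝ := Real.log (1 + 1 / β) with hB0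
  set T : ℝ := max 1 (max L (64 * L / η * (η / 32 + B0))) with hT
  refine ⟨2 * K0, ⌈Real.exp T⌉₊, by positivity, fun n m hm hn => ?_⟩
  have hmT : Real.exp T ≤ m := (Nat.le_ceil _).trans (by exact_mod_cast hm)
  have hm0 : (0 : ℝ) < m := (Real.exp_pos _).trans_le hmT
  have hlog : T ≤ Real.log m := (Real.le_log_iff_exp_le hm0).2 hmT
  have h1 : 1 ≤ Real.log m := (le_max_left _ _).trans hlog
  have h2 : L ≤ Real.log m := ((le_max_left _ _).trans (le_max_right _ _)).trans hlog
  have h3 : 64 * L / η * (η / 32 + B0) ≤ Real.log m :=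
    ((le_max_right _ _).trans (le_max_right _ _)).trans hlog
  set D : ℕ := ⌊Real.log m / L⌋₊ with hD
  have hD1 : 1 ≤ D := by
    rw [hD, Nat.one_le_floor_iff, le_div_iff₀ hLpos]; linarith
  have hDle : (D : ℝ) ≤ Real.log m / L := Nat.floor_le (by positivity)
  have hDge : Real.log m / L - 1 ≤ D := by
    have := Nat.lt_floor_add_one (Real.log m / L)
    rw [← hD] at this
    linarith
  have hDL : D * L ≤ Real.log m := by rwa [le_div_iff₀ hLpos] at hDle
  have h4q : (0 : ℝ) < 4 * q := by linarith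
  have hpow : (4 * (q : ℝ)) ^ D ≤ m := by
    rw [← Real.log_le_log_iff (by positivity) hm0, Real.log_pow]
    exact hDL
  have hn1 : 1 ≤ n := by
    have : (0 : ℝ) < n := lt_of_lt_of_le (by positivity) hn
    exact_mod_cast this
  set V : Type := {v : Fin D → Fin (2 * q) // r * D ≤ sq (pt v)} with hV
  have hsumW : β ≤ ∑ v : V, wc v.1 := by
    have h5 := total_weight hTM hrpos hβ hfar' hη hηr hq4 hD1
      (univ.filter fun v : Fin D → Fin (2 * q) => r * D ≤ sq (pt v))
      (fun v hv => Finset.mem_filter.2 ⟨Finset.mem_univ _, hv⟩)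
    refine h5.trans (le_of_eq ?_)
    exact Finset.sum_subtype _ (fun v => by simp) _
  have hVne : Nonempty V := by
    by_contra hno
    rw [not_nonempty_iff] at hno
    rw [Finset.univ_eq_empty, Finset.sum_empty] at hsumW
    linarith
  have hcard : ((Fintype.card V : ℕ) : ℝ) ≤ m := by
    have e1 : Fintype.card V ≤ Fintype.card (Fin D → Fin (2 * q)) := Fintype.card_subtype_le _
    rw [Fintype.card_fun, Fintype.card_fin, Fintype.card_fin] at e1
    calc ((Fintype.card V : ℕ) : ℝ) ≤ ((2 * q) ^ D : ℕ) := by exact_mod_cast e1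
      _ = (2 * (q : ℝ)) ^ D := by push_cast; rfl
      _ ≤ (4 * (q : ℝ)) ^ D := by gcongr; norm_num
      _ ≤ m := hpow
  have hcard0 : (0 : ℝ) < Fintype.card V := by exact_mod_cast Fintype.card_pos
  obtain ⟨A, hA1, hA2⟩ := hSA' (gam D) (fun v : V => half s (pt v.1))
    (fun u v : V => Rel r η u.1 v.1) c (fun v => half_meas _ _)
    (fun v => hGA' D hD1 _ v.2)
    (fun u v huv => (GB_ok s η D _ _ hs hη hD1 huv.2.2.2).trans hexp)
    n (by
      have e1 : Real.log (Fintype.card V) ≤ Real.log m := Real.log_le_log hcard0 hcard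
      calc K0 * (1 + Real.log (Fintype.card V)) ≤ K0 * (Real.log m + Real.log m) := by gcongr
        _ = 2 * K0 * Real.log m := by ring
        _ ≤ n := hn)
  have hwge : ∀ v : V, 1 ≤ m * wc v.1 := by
    intro v
    have e1 := wc_ge hTM hq1 v.1
    calc (1 : ℝ) = (4 * (q : ℝ)) ^ D * ((4 * (q : ℝ)) ^ D)⁻¹ := by field_simp
      _ ≤ m * wc v.1 := by
        apply mul_le_mul hpow e1 (by positivity) hm0.le
  obtain ⟨e, he⟩ := mult (fun v : V => wc v.1) hβ hsumW m hwge
  obtain ⟨I, hIcard, hI⟩ := f_mem (ε := ε) hn1 (by linarith : c < 1) (fun i => A (e i))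
    (fun i => hA1 _)
  set J : Finset V := I.image e with hJ
  have hJrel : ∀ u ∈ J, ∀ v ∈ J, ¬ Rel r η u.1 v.1 := by
    intro u hu v hv huv
    obtain ⟨i, hi, rfl⟩ := Finset.mem_image.1 hu
    obtain ⟨j, hj, rfl⟩ := Finset.mem_image.1 hv
    have hij : i ≠ j := by
      intro h
      exact huv.1 (by rw [h])
    have e1 := hI i hi j hj hij
    have e2 := hA2 _ _ huv
    exact absurd e1 (not_lt.2 e2.le)
  have hJw : ∑ v ∈ J, wc v.1 ≤ Real.exp (-(η * D / 32)) := by
    have h5 := indep_weight hPLB hTM hrpos hη hηr hq4 hD1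
      (J.map (Function.Embedding.subtype _)) (by
        intro v hv
        obtain ⟨u, _, rfl⟩ := Finset.mem_map.1 hv
        exact u.2) (by
        intro u hu v hv
        obtain ⟨u', hu', rfl⟩ := Finset.mem_map.1 hu
        obtain ⟨v', hv', rfl⟩ := Finset.mem_map.1 hv
        exact hJrel u' hu' v' hv')
    rwa [Finset.sum_map] at h5
  have hIle : (I.card : ℝ) ≤ ∑ v ∈ J, (((univ.filter fun i => e i = v).card : ℕ) : ℝ) := by
    have e1 : I.card ≤ ∑ v ∈ J, (univ.filter fun i => e i = v).card := by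
      rw [Finset.card_eq_sum_card_image e I]
      refine Finset.sum_le_sum fun v _ => Finset.card_le_card fun i hi => ?_
      exact Finset.mem_filter.2 ⟨Finset.mem_univ _, (Finset.mem_filter.1 hi).2⟩
    exact_mod_cast e1
  have hfin : (f n m c ε : ℝ) ≤ (1 + 1 / β) * m * Real.exp (-(η * D / 32)) := by
    rw [← hIcard]
    calc (I.card : ℝ) ≤ ∑ v ∈ J, (1 + 1 / β) * (m * wc v.1) :=
          hIle.trans (Finset.sum_le_sum fun v _ => he v)
      _ = (1 + 1 / β) * m * ∑ v ∈ J, wc v.1 := by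
          rw [Finset.mul_sum]
          refine Finset.sum_congr rfl fun v _ => by ring
      _ ≤ _ := by gcongr
  refine hfin.trans ?_
  have hnum := upp_num hη hLpos hL2pos hLL (by linarith : 0 ≤ Real.log m) h3 hDge
  rw [← Real.log_le_log_iff (by positivity) (by positivity), Real.log_rpow hm0,
    Real.log_mul (by positivity) (Real.exp_pos _).ne', Real.log_mul (by positivity) hm0.ne',
    Real.log_exp]
  have h6 : (1 - η / (128 * L2)) * Real.log m ≤
      (1 - κ / (Real.log (1 / ε) * Real.log (Real.log (1 / ε)))) * Real.log m := by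
    apply mul_le_mul_of_nonneg_right _ (by linarith)
    linarith [hk]
  linarith

end Pool.Agent.U208.SI

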