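import Pool.Agent.U208.SI.Stm

/-! Project SI: the known upper bound (dependent random choice; from the starting result Growth). -/

set_option autoImplicit false

namespace Pool.Agent.U208.SI

open Finset

theorem card_pi {n t : ℕ} (B : Finset (Fin n)) :
    ∑ x : Fin t → Fin n, (if ∀ j, x j ∈ B then (1 : ℝ) else 0) = (B.card : ℝ) ^ t := by
  rw [← sum_filter, sum_const, nsmul_eq_mul, mul_one]
  have : (univ.filter (fun x : Fin t → Fin n => ∀ j, x j ∈ B)) =
      Fintype.piFinset (fun _ => B) := by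
    ext x; simp
  rw [this, Fintype.card_piFinset]
  simp

open Classical in
theorem drc {n m : ℕ} (A : Fin m → Finset (Fin n)) (c ε : ℝ) (hc : 0 < c) (hε : 0 < ε)
    (hA : ∀ k, c * n < ((A k).card : ℝ)) (P : Finset (Fin m)) (hP : P.Nonempty) (t : ℕ)
    (ht : 2 * P.card * ε ^ t ≤ c ^ t) :
    ∃ I ⊆ P, (∀ i ∈ I, ∀ j ∈ I, ¬ (G A ε).Adj i j) ∧ (P.card : ℝ) * c ^ t / 2 ≤ I.card := by
  obtain ⟨k0, _⟩ := hP
  have hn : 0 < n := by
    rcases Nat.eq_zero_or_pos n with rfl | h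
    · have := hA k0
      have h2 : (A k0).card = 0 := by
        have := card_le_univ (A k0); simpa using this
      simp [h2] at this
    · exact h
  have hnR : (0 : ℝ) < n := by exact_mod_cast hn
  set U : (Fin t → Fin n) → Finset (Fin m) := fun x => P.filter (fun k => ∀ j, x j ∈ A k) with hU
  set E : Finset (Fin m × Fin m) := (P ×ˢ P).filter (fun p => (G A ε).Adj p.1 p.2) with hE
  set B : (Fin t → Fin n) → Finset (Fin m × Fin m) :=
    fun x => E.filter (fun p => ∀ j, x j ∈ A p.1 ∩ A p.2) with hB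
  have h1 : (P.card : ℝ) * (c * n) ^ t ≤ ∑ x, ((U x).card : ℝ) := by
    have : ∑ x, ((U x).card : ℝ) = ∑ k ∈ P, ((A k).card : ℝ) ^ t := by
      simp only [hU, card_filter, Nat.cast_sum, Nat.cast_ite, Nat.cast_one, Nat.cast_zero]
      rw [sum_comm]
      exact sum_congr rfl fun k _ => card_pi (A k)
    rw [this, ← nsmul_eq_mul, ← sum_const]
    exact sum_le_sum fun k _ => pow_le_pow_left₀ (by positivity) (hA k).le t
  have h2 : ∑ x, ((B x).card : ℝ) ≤ (P.card : ℝ) ^ 2 * (ε * n) ^ t := by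
    have : ∑ x, ((B x).card : ℝ) = ∑ p ∈ E, ((A p.1 ∩ A p.2).card : ℝ) ^ t := by
      simp only [hB, card_filter, Nat.cast_sum, Nat.cast_ite, Nat.cast_one, Nat.cast_zero]
      rw [sum_comm]
      exact sum_congr rfl fun p _ => card_pi (A p.1 ∩ A p.2)
    rw [this]
    calc _ ≤ ∑ _p ∈ E, (ε * n) ^ t := sum_le_sum fun p hp =>
          pow_le_pow_left₀ (by positivity) (mem_filter.1 hp).2.2.le t
      _ = E.card * (ε * n) ^ t := by rw [sum_const, nsmul_eq_mul]
      _ ≤ _ := by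
          gcongr
          have : E.card ≤ (P ×ˢ P).card := card_filter_le _ _
          rw [card_product, ← _root_.sq] at this
          exact_mod_cast this
  have h3 : ∑ _x : Fin t → Fin n, (P.card : ℝ) * c ^ t / 2 ≤
      ∑ x, (((U x).card : ℝ) - (B x).card) := by
    rw [sum_sub_distrib, sum_const, nsmul_eq_mul, card_univ, Fintype.card_fun, Fintype.card_fin,
      Fintype.card_fin]
    push_cast
    rw [mul_pow] at h1 h2
    have : (P.card : ℝ) * (n : ℝ) ^ t * (2 * P.card * ε ^ t) ≤ (P.card : ℝ) * (n : ℝ) ^ t * c ^ t := by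
      gcongr
    nlinarith
  have : Nonempty (Fin t → Fin n) := ⟨fun _ => ⟨0, hn⟩⟩
  obtain ⟨x, _, hx⟩ := exists_le_of_sum_le univ_nonempty h3
  refine ⟨U x \ (B x).image Prod.fst, sdiff_subset.trans (filter_subset _ _), ?_, hx.trans ?_⟩
  · intro i hi j hj hij
    obtain ⟨a1, a2⟩ := mem_sdiff.1 hi
    obtain ⟨b1, _⟩ := mem_sdiff.1 hj
    obtain ⟨a3, a4⟩ := mem_filter.1 a1
    obtain ⟨b3, b4⟩ := mem_filter.1 b1
    exact a2 (mem_image.2 ⟨(i, j), mem_filter.2 ⟨mem_filter.2 ⟨mem_product.2 ⟨a3, b3⟩, hij⟩,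
      fun l => mem_inter.2 ⟨a4 l, b4 l⟩⟩, rfl⟩)
  · have a1 := le_card_sdiff ((B x).image Prod.fst) (U x)
    have a2 := card_image_le (s := B x) (f := Prod.fst)
    have : (U x).card ≤ (U x \ (B x).image Prod.fst).card + (B x).card := by omega
    have : ((U x).card : ℝ) ≤ (U x \ (B x).image Prod.fst).card + (B x).card := by
      exact_mod_cast this
    linarith

theorem indep {n m : ℕ} (A : Fin m → Finset (Fin n)) (c ε : ℝ) (hc : 0 < c) (hc1 : c < 1)
    (hε : 0 < ε) (hεc : ε ≤ c ^ 2) (hA : ∀ k, c * n < ((A k).card : ℝ)) (P : Finset (Fin m))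
    (hP : P.Nonempty) :
    ∃ I ⊆ P, (∀ i ∈ I, ∀ j ∈ I, ¬ (G A ε).Adj i j) ∧
      c / 4 * P.card / (P.card : ℝ) ^ (Real.log (1 / c) / Real.log (c / ε)) ≤ I.card := by
  have hp : (1 : ℝ) ≤ P.card := by exact_mod_cast hP.card_pos
  have h1 : 1 < c / ε := by rw [one_lt_div hε]; nlinarith
  have h2 : 0 < Real.log (c / ε) := Real.log_pos h1
  have h3 : 1 < 1 / c := by rw [one_lt_div hc]; exact hc1
  have h4 : 0 < Real.log (1 / c) := Real.log_pos h3
  have h5 : Real.log (1 / c) ≤ Real.log (c / ε) := by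
    refine Real.log_le_log (by positivity) ?_
    rw [div_le_div_iff₀ hc hε]; nlinarith
  set γ := Real.log (1 / c) / Real.log (c / ε) with hγ
  have hγ1 : γ ≤ 1 := by rw [hγ, div_le_one h2]; exact h5
  set y := Real.log (2 * P.card) / Real.log (c / ε) with hy
  have hy0 : 0 ≤ y := div_nonneg (Real.log_nonneg (by linarith)) h2.le
  have ht : 2 * P.card * ε ^ ⌈y⌉₊ ≤ c ^ ⌈y⌉₊ := by
    have a1 : 2 * (P.card : ℝ) ≤ (c / ε) ^ ⌈y⌉₊ := by
      rw [← Real.rpow_natCast]
      calc 2 * (P.card : ℝ) = (c / ε) ^ y := by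
            rw [Real.rpow_def_of_pos (by positivity), hy, mul_div_cancel₀ _ h2.ne',
              Real.exp_log (by linarith)]
        _ ≤ _ := Real.rpow_le_rpow_of_exponent_le h1.le (Nat.le_ceil y)
    rwa [div_pow, le_div_iff₀ (by positivity)] at a1
  obtain ⟨I, i1, i2, i3⟩ := drc A c ε hc hε hA P hP _ ht
  refine ⟨I, i1, i2, le_trans ?_ i3⟩
  have a1 : c ^ (y + 1) ≤ c ^ ⌈y⌉₊ := by
    rw [← Real.rpow_natCast]
    exact Real.rpow_le_rpow_of_exponent_ge hc hc1.le (Nat.ceil_lt_add_one hy0).le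
  have a2 : c ^ y = 1 / (2 * (P.card : ℝ)) ^ γ := by
    rw [Real.rpow_def_of_pos hc, Real.rpow_def_of_pos (by linarith), one_div, ← Real.exp_neg]
    congr 1
    rw [hy, hγ, one_div c, Real.log_inv]; ring
  have a3 : (2 * (P.card : ℝ)) ^ γ ≤ 2 * (P.card : ℝ) ^ γ := by
    rw [Real.mul_rpow (by norm_num) (by linarith)]
    gcongr
    calc (2 : ℝ) ^ γ ≤ 2 ^ (1 : ℝ) := Real.rpow_le_rpow_of_exponent_le (by norm_num) hγ1
      _ = 2 := Real.rpow_one 2
  have a4 : 0 < (P.card : ℝ) ^ γ := by positivity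
  rw [Real.rpow_add hc, Real.rpow_one, a2] at a1
  have a5 : 1 / (2 * (P.card : ℝ) ^ γ) * c ≤ c ^ ⌈y⌉₊ := by
    refine le_trans ?_ a1
    gcongr
  calc _ = P.card * (1 / (2 * (P.card : ℝ) ^ γ) * c) / 2 := by field_simp; norm_num
    _ ≤ _ := by gcongr

theorem greedy {V : Type*} [DecidableEq V] (H : SimpleGraph V) (κ γ : ℝ) (hκ : 0 < κ)
    (hγ : 0 < γ) (hγ1 : γ ≤ 1)
    (h : ∀ P : Finset V, P.Nonempty → ∃ I ⊆ P, (∀ i ∈ I, ∀ j ∈ I, ¬ H.Adj i j) ∧
      κ * P.card / (P.card : ℝ) ^ γ ≤ I.card) :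
    ∀ (p : ℕ) (P : Finset V), P.card = p → ∃ col : V → ℕ,
      (∀ v ∈ P, (col v : ℝ) + 1 ≤ 1 / (γ * κ) * (P.card : ℝ) ^ γ) ∧
      ∀ i ∈ P, ∀ j ∈ P, H.Adj i j → col i ≠ col j := by
  intro p
  induction p using Nat.strong_induction_on with
  | _ p ih =>
    intro P hp
    rcases P.eq_empty_or_nonempty with rfl | hP
    · exact ⟨fun _ => 0, by simp, by simp⟩
    obtain ⟨I, i1, i2, i3⟩ := h P hP
    have hp0 : (0 : ℝ) < P.card := by exact_mod_cast hP.card_pos
    have hpγ : 0 < (P.card : ℝ) ^ γ := by positivity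
    have hI : (0 : ℝ) < I.card := lt_of_lt_of_le (by positivity) i3
    have hI' : 0 < I.card := by exact_mod_cast hI
    have hc := card_sdiff_add_card_eq_card i1
    obtain ⟨col, c1, c2⟩ := ih (P \ I).card (by omega) (P \ I) rfl
    have key : 1 / (γ * κ) * ((P \ I).card : ℝ) ^ γ + 1 ≤ 1 / (γ * κ) * (P.card : ℝ) ^ γ := by
      have e1 : ((P \ I).card : ℝ) = P.card * (1 + -(I.card / P.card)) := by
        have : ((P \ I).card : ℝ) + I.card = P.card := by exact_mod_cast hc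
        field_simp; linarith
      have e2 : -1 ≤ -((I.card : ℝ) / P.card) := by
        rw [neg_le_neg_iff, div_le_one hp0]; exact_mod_cast card_le_card i1
      have e3 := rpow_one_add_le_one_add_mul_self e2 hγ.le hγ1
      rw [e1, Real.mul_rpow hp0.le (by linarith)]
      have e4 : κ ≤ (P.card : ℝ) ^ γ * (I.card / P.card) := by
        rw [div_le_iff₀ hpγ] at i3
        rw [← mul_div_assoc, le_div_iff₀ hp0]; linarith
      have e5 : (P.card : ℝ) ^ γ * (1 + -((I.card : ℝ) / P.card)) ^ γ + γ * κ ≤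
          (P.card : ℝ) ^ γ := by
        have := mul_le_mul_of_nonneg_left e3 hpγ.le
        nlinarith
      have e6 : (1 : ℝ) = 1 / (γ * κ) * (γ * κ) := by field_simp
      have := mul_le_mul_of_nonneg_left e5 (by positivity : 0 ≤ 1 / (γ * κ))
      linarith
    refine ⟨fun v => if v ∈ I then 0 else col v + 1, fun v hv => ?_, fun i hi j hj hij => ?_⟩
    · beta_reduce
      split_ifs with hvI
      · have : 0 ≤ 1 / (γ * κ) * ((P \ I).card : ℝ) ^ γ := by positivity
        push_cast; linarith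
      · have := c1 v (mem_sdiff.2 ⟨hv, hvI⟩)
        push_cast; linarith
    · by_cases a1 : i ∈ I <;> by_cases a2 : j ∈ I
      · exact absurd hij (i2 i a1 j a2)
      · simp [a1, a2]
      · simp [a1, a2]
      · simpa [a1, a2] using c2 i (mem_sdiff.2 ⟨hi, a1⟩) j (mem_sdiff.2 ⟨hj, a2⟩) hij

theorem upper (c ε : ℝ) (hc : 0 < c) (hc1 : c < 1) (hε : 0 < ε) (hεc : ε ≤ c ^ 2) :
    ∃ K : ℝ, 0 < K ∧ ∀ n m : ℕ,
      (chiStar n m c ε : ℝ) ≤ K * (m : ℝ) ^ (Real.log (1 / c) / Real.log (c / ε)) := by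
  classical
  have h1 : 1 < c / ε := by rw [one_lt_div hε]; nlinarith
  have h2 : 0 < Real.log (c / ε) := Real.log_pos h1
  have h3 : 1 < 1 / c := by rw [one_lt_div hc]; exact hc1
  have h4 : 0 < Real.log (1 / c) := Real.log_pos h3
  have h5 : Real.log (1 / c) ≤ Real.log (c / ε) := by
    refine Real.log_le_log (by positivity) ?_
    rw [div_le_div_iff₀ hc hε]; nlinarith
  set γ := Real.log (1 / c) / Real.log (c / ε) with hγ
  have hγ1 : γ ≤ 1 := by rw [hγ, div_le_one h2]; exact h5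
  have hγ0 : 0 < γ := div_pos h4 h2
  refine ⟨1 / (γ * (c / 4)), by positivity, fun n m => ?_⟩
  set b := 1 / (γ * (c / 4)) * (m : ℝ) ^ γ with hb
  have hb0 : 0 ≤ b := by positivity
  rw [← Nat.le_floor_iff hb0]
  refine Finset.sup_le fun A hA => ?_
  obtain ⟨col, c1, c2⟩ := greedy (G A ε) (c / 4) γ (by positivity) hγ0 hγ1
    (indep A c ε hc hc1 hε hεc (mem_filter.1 hA).2) _ univ rfl
  rw [card_univ, Fintype.card_fin] at c1
  have : (G A ε).Colorable ⌊b⌋₊ := by
    refine ⟨SimpleGraph.Coloring.mk (fun v => ⟨col v, ?_⟩) ?_⟩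
    · have := c1 v (mem_univ _)
      exact Nat.lt_of_succ_le (Nat.le_floor (by push_cast; exact this))
    · intro i j hij h
      exact c2 i (mem_univ _) j (mem_univ _) hij (congrArg Fin.val h)
  exact ENat.toNat_le_of_le_natCast this.chromaticNumber_le

/-- The upper bound with the exponent `4 log (1/c) / log (1/ε)`. -/
theorem upper' (c : ℝ) (hc : 0 < c) (hc1 : c < 1) (ε : ℝ) (hε : 0 < ε) (hεc : ε ≤ c ^ 2) :
    ∃ m₁ : ℕ, ∀ n m : ℕ, m₁ ≤ m →
      (chiStar n m c ε : ℝ) ≤ (m : ℝ) ^ (4 * Real.log (1 / c) / Real.log (1 / ε)) := by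
  obtain ⟨K, hK, h⟩ := upper c ε hc hc1 hε hεc
  have h1 : 1 < c / ε := by rw [one_lt_div hε]; nlinarith
  have h2 : 0 < Real.log (c / ε) := Real.log_pos h1
  have h3 : 1 < 1 / c := by rw [one_lt_div hc]; exact hc1
  have h4 : 0 < Real.log (1 / c) := Real.log_pos h3
  have h5 : Real.log (1 / ε) ≤ 2 * Real.log (c / ε) := by
    have e1 : Real.log (c / ε) = Real.log c - Real.log ε := Real.log_div hc.ne' hε.ne'
    have e2 : Real.log (1 / ε) = - Real.log ε := by rw [one_div, Real.log_inv]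
    have e3 : Real.log ε ≤ Real.log (c ^ 2) := Real.log_le_log hε hεc
    rw [Real.log_pow] at e3
    push_cast at e3
    rw [e1, e2]; linarith
  have h6 : 0 < Real.log (1 / ε) := by
    apply Real.log_pos
    rw [one_lt_div hε]
    nlinarith
  set γ := Real.log (1 / c) / Real.log (c / ε) with hγ
  have hγ0 : 0 < γ := div_pos h4 h2
  have h7 : γ ≤ 2 * Real.log (1 / c) / Real.log (1 / ε) := by
    rw [hγ, div_le_div_iff₀ h2 h6]
    nlinarith
  refine ⟨⌈K ^ (1 / γ)⌉₊ + 1, fun n m hm => ?_⟩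
  have hm1 : (1 : ℝ) ≤ m := by exact_mod_cast (by omega : 1 ≤ m)
  have hmK : K ^ (1 / γ) ≤ m := (Nat.le_ceil _).trans (by exact_mod_cast (by omega))
  have h8 : K ≤ (m : ℝ) ^ γ := by
    calc K = (K ^ (1 / γ)) ^ γ := by
          rw [← Real.rpow_mul hK.le, one_div, inv_mul_cancel₀ hγ0.ne', Real.rpow_one]
      _ ≤ _ := Real.rpow_le_rpow (by positivity) hmK hγ0.le
  calc (chiStar n m c ε : ℝ) ≤ K * (m : ℝ) ^ γ := h n m
    _ ≤ (m : ℝ) ^ γ * (m : ℝ) ^ γ := by gcongr
    _ = (m : ℝ) ^ (γ + γ) := by rw [Real.rpow_add (by linarith)]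
    _ ≤ _ := by
        apply Real.rpow_le_rpow_of_exponent_le hm1
        calc γ + γ ≤ 2 * Real.log (1 / c) / Real.log (1 / ε) +
              2 * Real.log (1 / c) / Real.log (1 / ε) := by gcongr
          _ = _ := by ring

end Pool.Agent.U208.SI
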